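import Pool.Agent.helper36.MP.SpecP

set_option autoImplicit false

open Complex Metric Set Filter Topology MeasureTheory

noncomputable section

namespace MPS

theorem LRU_fin (n : ℕ) (hn : 1 ≤ n) : {z : ℂ | z ^ n = 1}.Finite := by
  have h : {z : ℂ | z ^ n = 1} ⊆ ((Polynomial.nthRoots n (1 : ℂ)).toFinset : Set ℂ) := by
    intro z hz
    simp only [Finset.mem_coe, Multiset.mem_toFinset]
    exact (Polynomial.mem_nthRoots hn).2 hz
  exact (Finset.finite_toSet _).subset h

theorem LRU : LRU_stmt := by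
  intro n Ω G₁ G₂ w₀ hn hΩ h1 h2 he h0 hw hv
  have hfin := LRU_fin n hn
  have : Finite {z : ℂ | z ^ n = 1} := hfin.to_subtype
  have hd : IsDiscrete {z : ℂ | z ^ n = 1} := ⟨inferInstance⟩
  have hc : ContinuousOn (fun w => G₁ w / G₂ w) Ω := h1.div h2 h0
  have hm : MapsTo (fun w => G₁ w / G₂ w) Ω {z : ℂ | z ^ n = 1} := by
    intro w hw'
    show (G₁ w / G₂ w) ^ n = 1
    rw [div_pow, he w hw', div_self (pow_ne_zero _ (h0 w hw'))]
  obtain ⟨y, _, hy⟩ := hΩ.eqOn_const_of_mapsTo hd hc hm ⟨1, one_pow n⟩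
  have hy0 : y = 1 := by
    have := hy hw
    simp only [Function.const_apply] at this
    rw [hv, div_self (h0 w₀ hw)] at this
    exact this.symm
  intro w hw'
  have := hy hw'
  simp only [Function.const_apply] at this
  rw [hy0] at this
  exact (div_eq_one_iff_eq (h0 w hw')).1 this

end MPS
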