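import Pool.Agent.helper36.MP.SpecP

set_option autoImplicit false

open Complex Metric Set Filter Topology MeasureTheory

noncomputable section

namespace MPS

theorem PT1_mono (A : ℕ → ℝ) (Q : ℕ) (h : ∀ q, q < Q → A q ≤ A (q + 1)) (p : ℕ) (hp : p ≤ Q) :
    ∀ q, q ≤ p → A q ≤ A p := by
  induction p with
  | zero =>
    intro q hq
    rw [Nat.le_zero.1 hq]
  | succ p ih =>
    intro q hq
    rcases Nat.lt_or_ge q (p + 1) with h1 | h1
    · exact (ih (by omega) q (by omega)).trans (h p (by omega))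
    · rw [le_antisymm hq h1]

theorem PT1_eps {n k : ℕ} [NeZero k] {c : ℂ} {b g : ZMod k → ℂ} {ψ : ZMod k → ℂ → ℂ}
    {R ε : ℝ} (h : SU n k c b g ψ R ε) : 0 < ε := by
  have h1 := h.hE
  have h2 : 0 < Real.log ‖rho n b‖ := Real.log_pos h.rho1
  have h3 : 0 ≤ ∫ z in ball (0 : ℂ) R, ‖er n c b g z‖ := integral_nonneg fun z => norm_nonneg _
  have h4 : 0 < 2 * Real.pi * Real.log ‖rho n b‖ := by positivity
  linarith

theorem PT1 (hMU : MU1_stmt) (hP1A : P1A_stmt) (hP1U : P1U_stmt) (hHMX : HMX_stmt)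
    (hLV : LV_stmt) : PT1_stmt := by
  intro n k _ c b g ψ R ε δ A G Q hH p hp1 hpQ
  have hε : 0 < ε := PT1_eps hH.su
  have hn := hH.su.hn
  obtain ⟨μ, hμ1, hμ2⟩ := hMU n k c b g ψ R ε δ A G Q hH
  have hmono := PT1_mono A Q hH.sys.mono p hpQ
  -- the first bound
  have hfirst : ∀ (w : ℂ) (t : ℝ), 0 < t → w.re = -(A p + t) → t ≤ 1 →
      ∑ q ∈ Finset.Icc 1 p, lev n c b g (GW G) q w ≤ 4 * ε / t ^ 2 := by
    intro w t ht hw ht1
    have h1 := hμ2 p hp1 hpQ (A p) t w le_rfl ht ht1 hw
    have h2 : μ (Ioo (A p + t / 2) (A p + 3 * t / 2)) ≤ ENNReal.ofReal (3 * ε) :=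
      (measure_mono (subset_univ _)).trans hμ1
    have h3 : ENNReal.ofReal (∑ q ∈ Finset.Icc 1 p, lev n c b g (GW G) q w) ≤
        ENNReal.ofReal (4 * ε / t ^ 2) := by
      refine h1.trans ((mul_le_mul_right h2 _).trans ?_)
      rw [← ENNReal.ofReal_mul (by positivity)]
      refine ENNReal.ofReal_le_ofReal ?_
      have hpi := Real.pi_gt_three
      have e : 4 / (Real.pi * t ^ 2) * (3 * ε) = (3 / Real.pi) * (4 * ε / t ^ 2) := by
        field_simp
      rw [e]
      have h4 : 3 / Real.pi ≤ 1 := by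
        rw [div_le_one Real.pi_pos]
        exact hpi.le
      have h5 : 0 ≤ 4 * ε / t ^ 2 := by positivity
      nlinarith
    exact (ENNReal.ofReal_le_ofReal_iff (by positivity)).1 h3
  intro w t ht hw
  refine ⟨fun ht1 => hfirst w t ht hw ht1, ?_, ?_⟩
  · intro ht1
    obtain ⟨hU1, hU2, -, -, -⟩ := hP1U n k c b g ψ R ε δ A G Q hH
    set s : Finset (ℕ × ℕ) := Finset.Icc 1 p ×ˢ Finset.range n with hs
    have hex : ∀ i : ℕ × ℕ, i ∈ s → ∃ H : ℂ → ℂ,
        DifferentiableOn ℂ H (ball 0 (Real.exp (-A p))) ∧ H 0 = 0 ∧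
          ∀ w ∈ HP (A p), (if i.2 = 0 then eef n c b g (GW G) (i.1 - 1) w
            else bet n b g (GW G) i.1 i.2 w) = H (Complex.exp w) := by
      rintro ⟨q, j⟩ hi
      rw [hs, Finset.mem_product, Finset.mem_Icc, Finset.mem_range] at hi
      obtain ⟨⟨hq1, hqp⟩, hj⟩ := hi
      simp only at hq1 hqp hj
      have hsub : ball (0 : ℂ) (Real.exp (-A p)) ⊆ ball 0 (Real.exp (-A q)) :=
        ball_subset_ball (Real.exp_le_exp.2 (neg_le_neg (hmono q hqp)))
      have hsub2 : HP (A p) ⊆ HP (A q) := by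
        intro w hw
        have h1 : w.re < -A p := hw
        have h2 := hmono q hqp
        show w.re < -A q
        linarith
      by_cases hj0 : j = 0
      · obtain ⟨H, a1, a2, a3⟩ := hU2 q hq1 (hqp.trans hpQ)
        refine ⟨H, a1.mono hsub, a2, fun w hw => ?_⟩
        simp only [hj0, if_true]
        exact a3 w (hsub2 hw)
      · obtain ⟨H, a1, a2, a3⟩ := hU1 q hq1 (hqp.trans hpQ) j
          (Finset.mem_Ico.2 ⟨Nat.one_le_iff_ne_zero.2 hj0, hj⟩)
        refine ⟨H, a1.mono hsub, a2, fun w hw => ?_⟩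
        simp only [hj0, if_false]
        exact a3 w (hsub2 hw)
    choose! H hH1 hH2 hH3 using hex
    have hsum : ∀ w ∈ HP (A p), ∑ i ∈ s, ‖H i (Complex.exp w)‖ =
        ∑ q ∈ Finset.Icc 1 p, lev n c b g (GW G) q w := by
      intro w hw
      rw [hs, Finset.sum_product]
      refine Finset.sum_congr rfl fun q hq => ?_
      rw [Finset.sum_range_eq_add_Ico _ (by omega : 0 < n)]
      unfold lev
      rw [add_comm]
      congr 1
      · refine Finset.sum_congr rfl fun j hj => ?_
        rw [Finset.mem_Ico] at hj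
        have hi : (q, j) ∈ s := by
          rw [hs, Finset.mem_product, Finset.mem_range]
          exact ⟨hq, hj.2⟩
        rw [← hH3 (q, j) hi w hw]
        have hj0 : j ≠ 0 := by omega
        simp only [hj0, if_false]
      · have hi : (q, 0) ∈ s := by
          rw [hs, Finset.mem_product, Finset.mem_range]
          exact ⟨hq, by omega⟩
        rw [← hH3 (q, 0) hi w hw]
        simp only [if_true]
    have hmx := hHMX (ℕ × ℕ) s H (Real.exp (-A p)) (Real.exp (-(A p + 1))) (4 * ε)
      (Real.exp_pos _) (Real.exp_lt_exp.2 (by linarith)) (fun i hi => ⟨hH1 i hi, hH2 i hi⟩) (by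
        intro u hu
        have hu0 : u ≠ 0 := by
          intro h
          rw [h, norm_zero] at hu
          exact (Real.exp_pos _).ne hu
        have hre : (Complex.log u).re = -(A p + 1) := by
          rw [Complex.log_re, hu, Real.log_exp]
        have hmem : Complex.log u ∈ HP (A p) := by
          show (Complex.log u).re < -A p
          rw [hre]
          linarith
        have h1 := hsum _ hmem
        rw [Complex.exp_log hu0] at h1
        rw [h1]
        have h2 := hfirst (Complex.log u) 1 one_pos hre le_rfl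
        simpa using h2)
    have hwm : w ∈ HP (A p) := by
      show w.re < -A p
      rw [hw]
      linarith
    have hnorm : ‖Complex.exp w‖ = Real.exp (-(A p + t)) := by
      rw [Complex.norm_exp, hw]
    have h3 := hmx (Complex.exp w) (by
      rw [hnorm]
      exact Real.exp_le_exp.2 (by linarith))
    rw [hsum w hwm, hnorm] at h3
    refine h3.trans (le_of_eq ?_)
    rw [mul_div_assoc, ← Real.exp_sub]
    congr 2
    ring
  · obtain ⟨-, -, -, hL, -, -⟩ := hP1A n k c b g ψ R ε δ A G Q hH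
    have hopen : IsOpen (HP (A p)) := isOpen_lt Complex.continuous_re continuous_const
    obtain ⟨-, -, -, h4⟩ := hLV n k c b g (GW G) (HP (A p)) p hn hH.su.cyc hopen (hL p hpQ)
    have hwm : w ∈ HP (A p) := by
      show w.re < -A p
      rw [hw]
      linarith
    exact h4 p le_rfl w hwm

end MPS
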