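import Pool.Agent.helper36.MP.SpecZ

set_option autoImplicit false

open Complex Metric Set Filter Topology MeasureTheory

noncomputable section

namespace MPS

open Pool.Agent.helper16.Multibrot

/-- the two-variable polynomial as a function -/
def ZN_F (R : Polynomial (Polynomial ℂ)) (l c : ℂ) : ℂ := (R.eval (Polynomial.C l)).eval c

theorem ZN_F_eq (R : Polynomial (Polynomial ℂ)) (l c : ℂ) :
    ZN_F R l c = ∑ i ∈ Finset.range (R.natDegree + 1), (R.coeff i).eval c * l ^ i := by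
  unfold ZN_F
  rw [Polynomial.eval_eq_sum_range (p := R), Polynomial.eval_finsetSum]
  refine Finset.sum_congr rfl fun i _ => ?_
  rw [Polynomial.eval_mul, Polynomial.eval_pow, Polynomial.eval_C]

theorem ZN_F_cont (R : Polynomial (Polynomial ℂ)) :
    Continuous fun q : ℂ × ℂ => ZN_F R q.1 q.2 := by
  simp only [ZN_F_eq]
  refine continuous_finsetSum _ fun i _ => ?_
  exact ((R.coeff i).continuous.comp continuous_snd).mul (continuous_fst.pow i)

theorem ZN_hurwitz (R : Polynomial (Polynomial ℂ)) (c c₁ l₁ : ℂ) (r : ℝ) (hc : c₁ ∈ ball c r)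
    (hl : ‖l₁‖ = 1) (h0 : ZN_F R l₁ c₁ = 0)
    (hne : ∀ l, ‖l‖ < 1 → ∀ c' ∈ ball c r, ZN_F R l c' ≠ 0) :
    R.eval (Polynomial.C l₁) = 0 := by
  by_contra hp
  -- a good radius
  have hd : 0 < r - dist c₁ c := by
    rw [mem_ball] at hc
    linarith
  obtain ⟨ρ, hρ, hρn⟩ := (Set.Ioo_infinite hd).exists_notMem_finset
    ((R.eval (Polynomial.C l₁)).roots.toFinset.image fun w => dist w c₁)
  have hsub : closedBall c₁ ρ ⊆ ball c r := by
    intro w hw
    rw [mem_closedBall] at hw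
    rw [mem_ball]
    have := dist_triangle w c₁ c
    have := hρ.2
    linarith
  have hs : ∀ w ∈ sphere c₁ ρ, ZN_F R l₁ w ≠ 0 := by
    intro w hw h
    apply hρn
    rw [Finset.mem_image]
    refine ⟨w, ?_, hw⟩
    rw [Multiset.mem_toFinset, Polynomial.mem_roots hp]
    exact h
  have hcF := ZN_F_cont R
  have hcont1 : Continuous fun w => ZN_F R l₁ w := hcF.comp (Continuous.prodMk_right l₁)
  have hcomp : IsCompact (sphere c₁ ρ) := isCompact_sphere c₁ ρ
  have hnes : (sphere c₁ ρ).Nonempty := NormedSpace.sphere_nonempty.2 hρ.1.le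
  obtain ⟨w₀, hw₀, hmin⟩ := hcomp.exists_isMinOn hnes hcont1.norm.continuousOn
  set m := ‖ZN_F R l₁ w₀‖ with hm
  have hm0 : 0 < m := norm_pos_iff.2 (hs w₀ hw₀)
  have hev1 : ∀ᶠ l in 𝓝 l₁, ∀ w ∈ sphere c₁ ρ, m / 2 < ‖ZN_F R l w‖ := by
    refine hcomp.eventually_forall_of_forall_eventually fun w hw => ?_
    have h1 : m / 2 < ‖ZN_F R (l₁, w).1 (l₁, w).2‖ := by
      have h2 : m ≤ ‖ZN_F R l₁ w‖ := hmin hw
      linarith
    exact (hcF.norm.tendsto (l₁, w)).eventually (lt_mem_nhds h1)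
  have hev2 : ∀ᶠ l in 𝓝 l₁, ‖ZN_F R l c₁‖ < m / 2 := by
    have h1 : ‖ZN_F R l₁ c₁‖ < m / 2 := by
      rw [h0, norm_zero]
      positivity
    have h2 : Continuous fun l => ‖ZN_F R l c₁‖ := (hcF.comp (Continuous.prodMk_left c₁)).norm
    exact (h2.tendsto l₁).eventually (gt_mem_nhds h1)
  have hfr : ∃ᶠ l in 𝓝 l₁, l ∈ ball (0 : ℂ) 1 := by
    rw [← mem_closure_iff_frequently, closure_ball _ one_ne_zero, mem_closedBall, dist_zero_right, hl]
  obtain ⟨l, hlb, h1, h2⟩ := (hfr.and_eventually (hev1.and hev2)).exists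
  rw [mem_ball, dist_zero_right] at hlb
  have hnz : ∀ w ∈ closedBall c₁ ρ, ZN_F R l w ≠ 0 := fun w hw => hne l hlb w (hsub hw)
  have hdF : Differentiable ℂ fun w => ZN_F R l w := (R.eval (Polynomial.C l)).differentiable
  have hdiff : DiffContOnCl ℂ (fun w => (ZN_F R l w)⁻¹) (ball c₁ ρ) := by
    refine ⟨fun w hw => ?_, ?_⟩
    · exact ((hdF w).inv (hnz w (ball_subset_closedBall hw))).differentiableWithinAt
    · rw [closure_ball _ hρ.1.ne']
      exact hdF.continuous.continuousOn.inv₀ hnz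
  have h3 := Complex.norm_le_of_forall_mem_frontier_norm_le (isBounded_ball) hdiff
    (C := 2 / m) (fun w hw => by
      rw [frontier_ball _ hρ.1.ne'] at hw
      rw [norm_inv, inv_le_comm₀ (norm_pos_iff.2 (hnz w (sphere_subset_closedBall hw)))
        (by positivity)]
      have := h1 w hw
      rw [inv_div]
      exact this.le) (z := c₁) (subset_closure (mem_ball_self hρ.1))
  rw [norm_inv, inv_le_comm₀ (norm_pos_iff.2 (hnz c₁ (mem_closedBall_self hρ.1.le)))
    (by positivity), inv_div] at h3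
  linarith

theorem ZN (hZR : ZR_stmt) (hZBIG : ZBIG_stmt) : ZN_stmt := by
  intro n c r hn hdisj c₁ hc₁ k z hk hz
  by_contra hcon
  push Not at hcon
  have hhyp : ∀ c' ∈ ball c r, ∀ w, (fc n c')^[k] w = w → ¬ ‖mlt n k c' w‖ < 1 := by
    intro c' hc' w hw hlt
    exact Set.disjoint_left.1 hdisj hc' ⟨w, k, hk, hw, hlt⟩
  have hl : ‖mlt n k c₁ z‖ = 1 :=
    le_antisymm hcon (not_lt.1 (hhyp c₁ hc₁ z hz))
  obtain ⟨R, hR⟩ := hZR n k hn hk
  have h0 : ZN_F R (mlt n k c₁ z) c₁ = 0 := (hR c₁ _).2 ⟨z, hz, rfl⟩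
  have hz0 := ZN_hurwitz R c c₁ (mlt n k c₁ z) r hc₁ hl h0 (by
    intro l hl' c' hc' h
    obtain ⟨w, hw, hwl⟩ := (hR c' l).1 h
    refine hhyp c' hc' w hw ?_
    rw [hwl]
    exact hl')
  have h3 : (R.eval (Polynomial.C (mlt n k c₁ z))).eval (3 : ℂ) = 0 := by
    rw [hz0, Polynomial.eval_zero]
  obtain ⟨w, hw, hwl⟩ := (hR 3 _).1 h3
  have h4 := hZBIG n k 3 w hn hk (by simp) hw
  rw [hwl, hl] at h4
  have h5 : (1 : ℝ) < (3 / 2) ^ k := one_lt_pow₀ (by norm_num) hk.ne'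
  linarith

end MPS
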